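import Pool.Agent.H985R5.LZ.Defs

/-!
Task CON: the graph and the fundamental domain are connected.
-/

set_option autoImplicit false

namespace H985LZ

lemma con_Npos (j : ℕ) : 0 < N j := by unfold N; positivity

lemma con_Npos' (j : ℕ) : 1 < N j := by
  unfold N
  exact Nat.one_lt_pow (by omega) (by norm_num)

def con_z (j : ℕ) : H := ⟨j, ⟨0, con_Npos j⟩⟩

lemma con_adj (j : ℕ) (a : Fin (N j)) (n : ℤ) : G.Adj (⟨j, a⟩, n) (con_z (j + 1), n) := by
  left
  refine ⟨rfl, ?_⟩
  simp [con_z, c]

lemma con_reach_z (j : ℕ) (n : ℤ) : G.Reachable (con_z j, n) (con_z 0, n) := by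
  induction j with
  | zero => exact SimpleGraph.Reachable.refl _
  | succ j ih => exact ((con_adj j _ n).reachable.symm).trans ih

lemma con_reach (x : V) : G.Reachable x (con_z 0, x.2) := by
  obtain ⟨⟨j, a⟩, n⟩ := x
  exact (con_adj j a n).reachable.trans (con_reach_z (j + 1) n)

lemma con_step (j : ℕ) (n : ℤ) :
    G.Reachable (con_z 0, n) (con_z 0, n + (A (j + 1) - A j)) := by
  have h1 : G.Adj ((⟨j, ⟨1, con_Npos' j⟩⟩ : H), n)
      ((⟨j + 1, ⟨1, con_Npos' (j + 1)⟩⟩ : H), n + (A (j + 1) - A j)) := by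
    left
    refine ⟨rfl, ?_⟩
    simp [c]
  exact ((con_reach _).symm.trans h1.reachable).trans (con_reach _)

lemma con_level (j : ℕ) (n : ℤ) :
    G.Reachable (con_z 0, n) (con_z 0, n + (A j - A 0)) := by
  induction j with
  | zero => simp
  | succ j ih =>
    have h := con_step j (n + (A j - A 0))
    have e : n + (A j - A 0) + (A (j + 1) - A j) = n + (A (j + 1) - A 0) := by ring
    rw [e] at h
    exact ih.trans h

lemma con_A (m : ℤ) : ∃ j, A j = m := by
  refine ⟨Nat.pair (Encodable.encode m) 0, ?_⟩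
  unfold A
  rw [Nat.unpair_pair]
  exact Denumerable.ofNat_encode m

lemma con_all (m : ℤ) : G.Reachable (con_z 0, 0) (con_z 0, m) := by
  obtain ⟨j, hj⟩ := con_A (m + A 0)
  have h := con_level j 0
  rw [hj] at h
  simpa using h

theorem t_con (_h : S_NB) : S_CON := by
  constructor
  · rw [SimpleGraph.connected_iff_exists_forall_reachable]
    refine ⟨(con_z 0, 0), fun x => ?_⟩
    exact (con_all x.2).trans (con_reach x).symm
  · rw [SimpleGraph.connected_iff_exists_forall_reachable]
    have hadj : ∀ (j : ℕ) (a : Fin (N j)), (G.induce D).Adj ⟨(⟨j, a⟩, 0), rfl⟩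
        ⟨(con_z (j + 1), 0), rfl⟩ := by
      intro j a
      rw [SimpleGraph.comap_adj]
      exact con_adj j a 0
    have hz : ∀ j : ℕ, (G.induce D).Reachable ⟨(con_z j, 0), rfl⟩ ⟨(con_z 0, 0), rfl⟩ := by
      intro j
      induction j with
      | zero => exact SimpleGraph.Reachable.refl _
      | succ j ih => exact ((hadj j _).reachable.symm).trans ih
    refine ⟨⟨(con_z 0, 0), rfl⟩, ?_⟩
    rintro ⟨⟨⟨j, a⟩, n⟩, hn⟩
    have hn' : n = 0 := hn
    subst hn'
    exact (((hadj j a).reachable).trans (hz (j + 1))).symm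

end H985LZ
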