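import Mathlib

/-!
A graph with a free `ℤ`-action: the quotient is Liouville, the random walk visits all the translates
of a connected fundamental domain infinitely often, the graph is not Liouville.  Definitions and
statements of the tasks.
-/

set_option autoImplicit false

namespace H985LZ

open MeasureTheory Finset

/-! ### General definitions -/

/-- `f` is harmonic on the locally finite graph `G`: at every vertex its value is the average over
the neighbours. -/
def Harm {V : Type} (G : SimpleGraph V) [G.LocallyFinite] (f : V → ℝ) : Prop :=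
  ∀ x, (G.degree x : ℝ) * f x = ∑ y ∈ G.neighborFinset x, f y

def Bdd {V : Type} (f : V → ℝ) : Prop := ∃ C : ℝ, ∀ x, |f x| ≤ C

/-- `X` is a simple random walk on `G` started at `x`. -/
structure IsSRW {V : Type} (G : SimpleGraph V) [G.LocallyFinite] {Ω : Type} [MeasurableSpace Ω]
    (P : Measure Ω) (X : ℕ → Ω → V) (x : V) : Prop where
  meas : ∀ t y, MeasurableSet {ω | X t ω = y}
  law : ∀ (n : ℕ) (γ : ℕ → V), P {ω | ∀ i ≤ n, X i ω = γ i} =
    open Classical in if γ 0 = x ∧ ∀ i < n, G.Adj (γ i) (γ (i + 1)) then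
      ∏ i ∈ Finset.range n, ((G.degree (γ i) : ENNReal))⁻¹ else 0

/-! ### The example -/

/-- Sizes of the layers. -/
def N (j : ℕ) : ℕ := 8 ^ (j + 1)

/-- A sequence of integers which takes every value infinitely often. -/
def A (j : ℕ) : ℤ := Denumerable.ofNat ℤ (Nat.unpair j).1

/-- Vertices of the quotient: layer and position. -/
abbrev H := (j : ℕ) × Fin (N j)

/-- Vertices. -/
abbrev V := H × ℤ

/-- The cocycle on the edge from `(j, a)` to `(j + 1, b)`. -/
def c (j : ℕ) (a b : ℕ) : ℤ := if a = 0 ∨ b = 0 then 0 else A (j + 1) - A j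

def up (x y : V) : Prop := y.1.1 = x.1.1 + 1 ∧ y.2 = x.2 + c x.1.1 x.1.2 y.1.2

/-- The graph. -/
def G : SimpleGraph V where
  Adj x y := up x y ∨ up y x
  symm := ⟨fun _ _ h => h.symm⟩
  loopless := ⟨by
    rintro x (⟨h, _⟩ | ⟨h, _⟩) <;> omega⟩

/-- The neighbours of `x`: one over every vertex of the next layer and one over every vertex of the
previous layer. -/
def nb (x : V) : Finset V :=
  (Finset.univ.image (fun b : Fin (N (x.1.1 + 1)) =>
    ((⟨x.1.1 + 1, b⟩ : H), x.2 + c x.1.1 x.1.2 b))) ∪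
  (match x with
    | (⟨0, _⟩, _) => ∅
    | (⟨j + 1, a⟩, n) => Finset.univ.image (fun b : Fin (N j) => ((⟨j, b⟩ : H), n - c j b a)))

/-- The fundamental domain. -/
def D : Set V := {x | x.2 = 0}

/-! ### Statements -/

/-- (NB) -/
def S_NB : Prop := ∀ x y : V, y ∈ nb x ↔ G.Adj x y

/-- The sum over the neighbours. -/
def nsum (f : V → ℝ) (x : V) : ℝ := ∑ y ∈ nb x, f y

/-- (SUM) formulas for the sums over the neighbours. -/
def S_SUM : Prop := (∀ (f : V → ℝ) (a : Fin (N 0)) (n : ℤ), nsum f (⟨0, a⟩, n) =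
      ∑ b : Fin (N 1), f (⟨1, b⟩, n + c 0 a b)) ∧
    (∀ (f : V → ℝ) (j : ℕ) (a : Fin (N (j + 1))) (n : ℤ), nsum f (⟨j + 1, a⟩, n) =
      ∑ b : Fin (N (j + 2)), f (⟨j + 2, b⟩, n + c (j + 1) a b) +
      ∑ b : Fin (N j), f (⟨j, b⟩, n - c j b a)) ∧
    (∀ (a : Fin (N 0)) (n : ℤ), (nb (⟨0, a⟩, n)).card = N 1) ∧
    (∀ (j : ℕ) (a : Fin (N (j + 1))) (n : ℤ), (nb (⟨j + 1, a⟩, n)).card = N (j + 2) + N j)

/-- (CON) the graph and the fundamental domain are connected. -/
def S_CON : Prop := G.Connected ∧ (G.induce D).Connected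

/-- (HL) bounded (indeed all) invariant harmonic functions are constant. -/
def S_HL : Prop := ∀ f : H → ℝ, (∀ x : V, ((nb x).card : ℝ) * f x.1 = ∑ y ∈ nb x, f y.1) →
    ∀ h h' : H, f h = f h'

/-- The averaging operator. -/
noncomputable def Q (f : V → ℝ) (x : V) : ℝ := (∑ y ∈ nb x, f y) / (nb x).card

/-- The error function. -/
noncomputable def err (x : V) : ℝ := if (x.1.2 : ℕ) = 0 then 1 else 2 / (64 * 8 ^ x.1.1)

/-- The supersolution. -/
noncomputable def g (x : V) : ℝ := if (x.1.2 : ℕ) = 0 then 5 / 4 else 1 / 10 * (1 / 4) ^ x.1.1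

/-- The test function. -/
def phi (x : V) : ℝ := if x.2 = A x.1.1 then 1 else 0

/-- (SUP) -/
def S_SUP : Prop := (∀ x, Q g x ≤ g x - err x) ∧ ∀ x, |Q phi x - phi x| ≤ err x

/-- (HARM) a nonconstant bounded harmonic function. -/
def S_HARM : Prop := ∃ f : V → ℝ, (∀ x, 0 ≤ f x ∧ f x ≤ 1) ∧ (∀ x, Q f x = f x) ∧
    ∃ x y, f x ≠ f y

/-- (SER) along the random walk the error is summable. -/
def S_SER : Prop := ∀ [G.LocallyFinite] (Ω : Type) [MeasurableSpace Ω] (P : Measure Ω)
    [IsProbabilityMeasure P] (X : ℕ → Ω → V) (x : V), IsSRW G P X x →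
      ∀ᵐ ω ∂P, (∀ t, G.Adj (X t ω) (X (t + 1) ω)) ∧ Summable (fun t => err (X t ω))

/-- (VIS) a path with summable error visits all translates infinitely often. -/
def S_VIS : Prop := ∀ γ : ℕ → V, (∀ t, G.Adj (γ t) (γ (t + 1))) → Summable (fun t => err (γ t)) →
    ∀ k : ℤ, ∀ T : ℕ, ∃ t, T ≤ t ∧ (γ t).2 = k

end H985LZ
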