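import Pool.Agent.H985R5.LZ.Defs

/-!
# HARM: a nonconstant bounded harmonic function
-/

set_option autoImplicit false

namespace H985LZ

open MeasureTheory Finset Filter Topology

namespace HARM971

theorem nb_pos (x : V) : 0 < ((nb x).card : ℝ) := by
  have h : (nb x).Nonempty := by
    refine ⟨((⟨x.1.1 + 1, ⟨0, by unfold N; positivity⟩⟩ : H), x.2 + c x.1.1 x.1.2 (0 : ℕ)), ?_⟩
    unfold nb
    refine Finset.mem_union_left _ (Finset.mem_image.2 ⟨⟨0, by unfold N; positivity⟩,
      Finset.mem_univ _, rfl⟩)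
  exact_mod_cast Finset.card_pos.2 h

theorem Q_sub (f f' : V → ℝ) (x : V) : Q (fun z => f z - f' z) x = Q f x - Q f' x := by
  unfold Q
  rw [Finset.sum_sub_distrib, sub_div]

theorem Q_mono {f f' : V → ℝ} (h : ∀ z, f z ≤ f' z) (x : V) : Q f x ≤ Q f' x := by
  unfold Q
  exact div_le_div_of_nonneg_right (Finset.sum_le_sum fun z _ => h z) (nb_pos x).le

theorem Q_abs (f : V → ℝ) (x : V) : |Q f x| ≤ Q (fun z => |f z|) x := by
  unfold Q
  rw [abs_div, abs_of_pos (nb_pos x)]
  exact div_le_div_of_nonneg_right (Finset.abs_sum_le_sum_abs _ _) (nb_pos x).le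

theorem Q_const (r : ℝ) (x : V) : Q (fun _ => r) x = r := by
  unfold Q
  rw [Finset.sum_const, nsmul_eq_mul]
  field_simp [(nb_pos x).ne']

theorem it_succ (f : V → ℝ) (t : ℕ) (x : V) : Q^[t + 1] f x = Q (Q^[t] f) x := by
  rw [Function.iterate_succ_apply']

theorem it_nonneg {f : V → ℝ} (h : ∀ z, 0 ≤ f z) (t : ℕ) (x : V) : 0 ≤ Q^[t] f x := by
  induction t generalizing x with
  | zero => exact h x
  | succ t ih =>
    rw [it_succ, ← Q_const 0 x]
    exact Q_mono (fun z => ih z) x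

theorem it_le_one {f : V → ℝ} (h : ∀ z, f z ≤ 1) (t : ℕ) (x : V) : Q^[t] f x ≤ 1 := by
  induction t generalizing x with
  | zero => exact h x
  | succ t ih =>
    rw [it_succ, ← Q_const 1 x]
    exact Q_mono (fun z => ih z) x

theorem err_nonneg (x : V) : 0 ≤ err x := by
  unfold err
  split_ifs
  · norm_num
  · positivity

theorem g_nonneg (x : V) : 0 ≤ g x := by
  unfold g
  split_ifs
  · norm_num
  · positivity

theorem phi_nonneg (x : V) : 0 ≤ phi x := by
  unfold phi
  split_ifs <;> norm_num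

theorem phi_le_one (x : V) : phi x ≤ 1 := by
  unfold phi
  split_ifs <;> norm_num

theorem step_le (h2 : S_SUP) (t : ℕ) (x : V) :
    |Q^[t + 1] phi x - Q^[t] phi x| ≤ Q^[t] err x := by
  induction t generalizing x with
  | zero => exact h2.2 x
  | succ t ih =>
    rw [it_succ phi (t + 1), it_succ phi t, it_succ err t, ← Q_sub]
    refine (Q_abs _ x).trans (Q_mono (fun z => ?_) x)
    exact ih z

theorem err_le (h2 : S_SUP) (t : ℕ) (x : V) :
    Q^[t] err x ≤ Q^[t] g x - Q^[t + 1] g x := by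
  induction t generalizing x with
  | zero =>
    have := h2.1 x
    show err x ≤ g x - Q g x
    linarith
  | succ t ih =>
    rw [it_succ err t, it_succ g (t + 1), it_succ g t, ← Q_sub]
    exact Q_mono (fun z => ih z) x

theorem sum_le (h2 : S_SUP) (T : ℕ) (x : V) :
    ∑ t ∈ Finset.range T, Q^[t] err x ≤ g x - Q^[T] g x := by
  induction T with
  | zero => simp
  | succ T ih =>
    rw [Finset.sum_range_succ]
    have := err_le h2 T x
    linarith

theorem summ (h2 : S_SUP) (x : V) : Summable (fun t => Q^[t] err x) ∧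
    ∑' t, Q^[t] err x ≤ g x := by
  have hb : ∀ T, ∑ t ∈ Finset.range T, Q^[t] err x ≤ g x := by
    intro T
    have := sum_le h2 T x
    have := it_nonneg g_nonneg T x
    linarith
  have hs : Summable (fun t => Q^[t] err x) :=
    summable_of_sum_range_le (fun t => it_nonneg err_nonneg t x) hb
  exact ⟨hs, Real.tsum_le_of_sum_range_le (fun t => it_nonneg err_nonneg t x) hb⟩

theorem dist_le (h2 : S_SUP) (x : V) (t : ℕ) :
    dist (Q^[t] phi x) (Q^[t.succ] phi x) ≤ Q^[t] err x := by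
  rw [dist_comm, Real.dist_eq]
  exact step_le h2 t x

theorem lim_ex (h2 : S_SUP) (x : V) : ∃ r : ℝ, Tendsto (fun t => Q^[t] phi x) atTop (𝓝 r) :=
  cauchySeq_tendsto_of_complete (cauchySeq_of_dist_le_of_summable _ (dist_le h2 x) (summ h2 x).1)

end HARM971

open HARM971 in
theorem t_harm (h1 : S_NB) (h2 : S_SUP) : S_HARM := by
  choose f hf using lim_ex h2
  have hclose : ∀ x, dist (phi x) (f x) ≤ g x := by
    intro x
    exact (dist_le_tsum_of_dist_le_of_tendsto₀ _ (dist_le h2 x) (summ h2 x).1 (hf x)).trans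
      (summ h2 x).2
  refine ⟨f, fun x => ⟨?_, ?_⟩, fun x => ?_, ?_⟩
  · exact ge_of_tendsto' (hf x) (fun t => it_nonneg phi_nonneg t x)
  · exact le_of_tendsto' (hf x) (fun t => it_le_one phi_le_one t x)
  · have h3 : Tendsto (fun t => Q^[t + 1] phi x) atTop (𝓝 (f x)) :=
      (hf x).comp (tendsto_add_atTop_nat 1)
    have h4 : Tendsto (fun t => Q^[t + 1] phi x) atTop (𝓝 (Q f x)) := by
      have h5 : (fun t => Q^[t + 1] phi x) =
          fun t => (∑ y ∈ nb x, Q^[t] phi y) / ((nb x).card : ℝ) := by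
        funext t
        rw [it_succ]
        rfl
      rw [h5]
      exact (tendsto_finset_sum _ fun y _ => hf y).div_const _
    exact tendsto_nhds_unique h4 h3
  · have hN : 1 < N 0 := by unfold N; norm_num
    refine ⟨((⟨0, ⟨1, hN⟩⟩ : H), A 0), ((⟨0, ⟨1, hN⟩⟩ : H), A 0 + 1), ?_⟩
    have e1 := hclose ((⟨0, ⟨1, hN⟩⟩ : H), A 0)
    have e2 := hclose ((⟨0, ⟨1, hN⟩⟩ : H), A 0 + 1)
    have g1 : g ((⟨0, ⟨1, hN⟩⟩ : H), A 0) = 1 / 10 := by
      unfold g
      simp
    have g2 : g ((⟨0, ⟨1, hN⟩⟩ : H), A 0 + 1) = 1 / 10 := by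
      unfold g
      simp
    have p1 : phi ((⟨0, ⟨1, hN⟩⟩ : H), A 0) = 1 := by
      unfold phi
      simp
    have p2 : phi ((⟨0, ⟨1, hN⟩⟩ : H), A 0 + 1) = 0 := by
      unfold phi
      simp
    rw [g1, p1, Real.dist_eq] at e1
    rw [g2, p2, Real.dist_eq] at e2
    have a1 := (abs_le.1 e1).2
    have a2 := (abs_le.1 e2).1
    intro h
    rw [h] at a1
    linarith

end H985LZ
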