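import Pool.Agent.H985R5.LZ.Defs

/-! Task HL: the quotient is Liouville. -/

set_option autoImplicit false

namespace H985LZ

open MeasureTheory Finset

theorem HL_pos (j : ℕ) : 0 < N j := by unfold N; positivity

theorem t_hl (h : S_SUM) : S_HL := by
  obtain ⟨h1, h2, h3, h4⟩ := h
  intro f hf
  have hpos : ∀ j, (0 : ℝ) < (N j : ℝ) := fun j => Nat.cast_pos.2 (HL_pos j)
  have e0 : ∀ a : Fin (N 0), (N 1 : ℝ) * f ⟨0, a⟩ = ∑ b : Fin (N 1), f ⟨1, b⟩ := by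
    intro a
    have e := hf (⟨0, a⟩, 0)
    rw [h3] at e
    have e' := h1 (fun y : V => f y.1) a 0
    unfold nsum at e'
    rw [e'] at e
    exact e
  have e1 : ∀ (j : ℕ) (a : Fin (N (j + 1))), ((N (j + 2) : ℝ) + N j) * f ⟨j + 1, a⟩ =
      ∑ b : Fin (N (j + 2)), f ⟨j + 2, b⟩ + ∑ b : Fin (N j), f ⟨j, b⟩ := by
    intro j a
    have e := hf (⟨j + 1, a⟩, 0)
    rw [h4] at e
    have e' := h2 (fun y : V => f y.1) j a 0
    unfold nsum at e'
    rw [e', Nat.cast_add] at e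
    exact e
  have hu : ∀ (j : ℕ) (a : Fin (N j)), f ⟨j, a⟩ = f ⟨j, ⟨0, HL_pos j⟩⟩ := by
    intro j a
    cases j with
    | zero =>
      have := (e0 a).trans (e0 ⟨0, HL_pos 0⟩).symm
      exact mul_left_cancel₀ (hpos 1).ne' this
    | succ j =>
      have := (e1 j a).trans (e1 j ⟨0, HL_pos (j + 1)⟩).symm
      exact mul_left_cancel₀ (add_pos (hpos (j + 2)) (hpos j)).ne' this
  have hsum : ∀ j, ∑ b : Fin (N j), f ⟨j, b⟩ = (N j : ℝ) * f ⟨j, ⟨0, HL_pos j⟩⟩ := by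
    intro j
    rw [Finset.sum_congr rfl (fun b _ => hu j b), Finset.sum_const, Finset.card_univ,
      Fintype.card_fin, nsmul_eq_mul]
  have hstep : ∀ j, f ⟨j + 1, ⟨0, HL_pos (j + 1)⟩⟩ = f ⟨j, ⟨0, HL_pos j⟩⟩ := by
    intro j
    induction j with
    | zero =>
      have e := e0 ⟨0, HL_pos 0⟩
      rw [hsum 1] at e
      exact (mul_left_cancel₀ (hpos 1).ne' e).symm
    | succ j ih =>
      have e := e1 j ⟨0, HL_pos (j + 1)⟩
      rw [hsum (j + 2), hsum j, ← ih] at e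
      have e' : (N (j + 2) : ℝ) * f ⟨j + 1, ⟨0, HL_pos (j + 1)⟩⟩ =
          (N (j + 2) : ℝ) * f ⟨j + 2, ⟨0, HL_pos (j + 2)⟩⟩ := by linarith
      exact (mul_left_cancel₀ (hpos (j + 2)).ne' e').symm
  have hall : ∀ j, f ⟨j, ⟨0, HL_pos j⟩⟩ = f ⟨0, ⟨0, HL_pos 0⟩⟩ := by
    intro j
    induction j with
    | zero => rfl
    | succ j ih => rw [hstep j, ih]
  rintro ⟨j, a⟩ ⟨j', a'⟩
  rw [hu j a, hu j' a', hall j, hall j']

end H985LZ
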