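import Mathlib
import Pool.Agent.H985R5.LZ.Defs

set_option autoImplicit false

namespace H985LZ

open MeasureTheory Finset

theorem t_nb : S_NB := by
  rintro ⟨⟨j, a⟩, n⟩ ⟨⟨k, b⟩, m⟩
  cases j with
  | zero =>
    simp only [nb, Finset.union_empty, Finset.mem_image, Finset.mem_univ, true_and, G, up]
    constructor
    · rintro ⟨b', hb'⟩
      simp only [Prod.mk.injEq, Sigma.mk.injEq] at hb'
      obtain ⟨⟨h1, h2⟩, h3⟩ := hb'
      subst h1
      have h2' := eq_of_heq h2
      subst h2'
      left
      exact ⟨rfl, h3.symm⟩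
    · rintro (⟨h1, h2⟩ | ⟨h1, h2⟩)
      · subst h1
        exact ⟨b, by rw [h2]⟩
      · omega
  | succ j =>
    simp only [nb, Finset.mem_union, Finset.mem_image, Finset.mem_univ, true_and, G, up]
    constructor
    · rintro (⟨b', hb'⟩ | ⟨b', hb'⟩)
      · simp only [Prod.mk.injEq, Sigma.mk.injEq] at hb'
        obtain ⟨⟨h1, h2⟩, h3⟩ := hb'
        subst h1
        have h2' := eq_of_heq h2
        subst h2'
        left
        exact ⟨rfl, h3.symm⟩
      · simp only [Prod.mk.injEq, Sigma.mk.injEq] at hb'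
        obtain ⟨⟨h1, h2⟩, h3⟩ := hb'
        subst h1
        have h2' := eq_of_heq h2
        subst h2'
        right
        refine ⟨rfl, ?_⟩
        rw [← h3]
        ring
    · rintro (⟨h1, h2⟩ | ⟨h1, h2⟩)
      · subst h1
        left
        exact ⟨b, by rw [h2]⟩
      · have h1' : j = k := by omega
        subst h1'
        right
        refine ⟨b, ?_⟩
        rw [h2]
        simp

theorem inj_up (j : ℕ) (n : ℤ) (a : ℕ) : Function.Injective
    (fun b : Fin (N (j + 1)) => (((⟨j + 1, b⟩ : H), n + c j a b) : V)) := by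
  intro b b' h
  simp only [Prod.mk.injEq, Sigma.mk.injEq, heq_eq_eq, true_and] at h
  exact h.1

theorem inj_down (j : ℕ) (n : ℤ) (a : ℕ) : Function.Injective
    (fun b : Fin (N j) => (((⟨j, b⟩ : H), n - c j b a) : V)) := by
  intro b b' h
  simp only [Prod.mk.injEq, Sigma.mk.injEq, heq_eq_eq, true_and] at h
  exact h.1

theorem disj_nb (j : ℕ) (n : ℤ) (a : ℕ) : Disjoint
    (Finset.univ.image (fun b : Fin (N (j + 1 + 1)) =>
      (((⟨j + 1 + 1, b⟩ : H), n + c (j + 1) a b) : V)))
    (Finset.univ.image (fun b : Fin (N j) => (((⟨j, b⟩ : H), n - c j b a) : V))) := by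
  rw [Finset.disjoint_left]
  intro x hx hx'
  simp only [Finset.mem_image, Finset.mem_univ, true_and] at hx hx'
  obtain ⟨b, rfl⟩ := hx
  obtain ⟨b', hb'⟩ := hx'
  simp only [Prod.mk.injEq, Sigma.mk.injEq] at hb'
  omega

theorem t_sum : S_SUM := by
  refine ⟨?_, ?_, ?_, ?_⟩
  · intro f a n
    simp only [nsum, nb, Finset.union_empty]
    rw [Finset.sum_image (fun x _ y _ h => inj_up 0 n a h)]
  · intro f j a n
    simp only [nsum, nb]
    rw [Finset.sum_union (disj_nb j n a), Finset.sum_image (fun x _ y _ h => inj_up (j + 1) n a h),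
      Finset.sum_image (fun x _ y _ h => inj_down j n a h)]
  · intro a n
    simp only [nb, Finset.union_empty]
    rw [Finset.card_image_of_injective _ (inj_up 0 n a)]
    simp
  · intro j a n
    simp only [nb]
    rw [Finset.card_union_of_disjoint (disj_nb j n a),
      Finset.card_image_of_injective _ (inj_up (j + 1) n a),
      Finset.card_image_of_injective _ (inj_down j n a)]
    simp

end H985LZ
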