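import Pool.Agent.H985R5.LZ.Defs

/-!
# The supersolution
-/

set_option autoImplicit false

namespace H985LZ

open Finset

theorem N_pos (j : ℕ) : 0 < N j := by unfold N; positivity

theorem sum_fin_ite (k : ℕ) (hk : 0 < k) (h : Fin k → ℝ) (u v : ℝ)
    (h0 : ∀ b : Fin k, (b : ℕ) = 0 → h b = u) (h1 : ∀ b : Fin k, (b : ℕ) ≠ 0 → h b = v) :
    ∑ b, h b = u + ((k : ℝ) - 1) * v := by
  obtain ⟨m, rfl⟩ := Nat.exists_eq_succ_of_ne_zero hk.ne'
  rw [Fin.sum_univ_succ, h0 0 rfl,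
    Finset.sum_congr rfl (fun b _ => h1 b.succ (by rw [Fin.val_succ]; omega))]
  simp

theorem gsum (j : ℕ) (f : Fin (N j) → ℤ) :
    ∑ b : Fin (N j), g ((⟨j, b⟩ : H), f b) = 5 / 4 + ((8 : ℝ) ^ (j + 1) - 1) * (1 / 10 * (1 / 4) ^ j) := by
  rw [sum_fin_ite (N j) (N_pos j) (fun b => g ((⟨j, b⟩ : H), f b)) (5 / 4) (1 / 10 * (1 / 4) ^ j)]
  · unfold N
    push_cast
    rfl
  · intro b hb
    simp only [g]
    exact if_pos hb
  · intro b hb
    simp only [g]
    exact if_neg hb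

theorem sum_diff (k : ℕ) (h : Fin k → ℝ) (v : ℝ)
    (h0 : ∀ b : Fin k, (b : ℕ) ≠ 0 → h b = v) (h1 : ∀ b : Fin k, |h b - v| ≤ 1) :
    |∑ b, h b - (k : ℝ) * v| ≤ 1 := by
  rcases Nat.eq_zero_or_pos k with rfl | hk
  · simp
  · obtain ⟨m, rfl⟩ := Nat.exists_eq_succ_of_ne_zero hk.ne'
    have h2 : ∑ b, h b = h 0 + (((m + 1 : ℕ) : ℝ) - 1) * v :=
      sum_fin_ite (m + 1) hk h (h 0) v
        (fun b hb => by rw [show b = 0 from Fin.ext hb]) h0
    rw [h2]
    have h3 := h1 0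
    have h4 : h 0 + (((m + 1 : ℕ) : ℝ) - 1) * v - ((m.succ : ℕ) : ℝ) * v = h 0 - v := by
      push_cast
      ring
    rw [h4]
    exact h3

theorem phi_nonneg (x : V) : 0 ≤ phi x := by
  unfold phi; split_ifs <;> norm_num

theorem phi_le_one (x : V) : phi x ≤ 1 := by
  unfold phi; split_ifs <;> norm_num

theorem Q_phi_nonneg (x : V) : 0 ≤ Q phi x := by
  unfold Q
  exact div_nonneg (Finset.sum_nonneg fun y _ => phi_nonneg y) (Nat.cast_nonneg _)

theorem Q_phi_le_one (x : V) : Q phi x ≤ 1 := by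
  unfold Q
  apply div_le_one_of_le₀ _ (Nat.cast_nonneg _)
  calc ∑ y ∈ nb x, phi y ≤ ∑ y ∈ nb x, (1 : ℝ) := Finset.sum_le_sum fun y _ => phi_le_one y
    _ = (nb x).card := by simp

theorem phi_sub_le (x y : V) : |phi x - phi y| ≤ 1 := by
  rw [abs_le]
  have := phi_nonneg x
  have := phi_nonneg y
  have := phi_le_one x
  have := phi_le_one y
  constructor <;> linarith

theorem phi_up (j : ℕ) (a b : ℕ) (a' : Fin (N j)) (b' : Fin (N (j + 1))) (n : ℤ)
    (ha : a ≠ 0) (hb : b ≠ 0) :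
    phi ((⟨j + 1, b'⟩ : H), n + c j a b) = phi ((⟨j, a'⟩ : H), n) := by
  unfold phi c
  rw [if_neg (by tauto : ¬ (a = 0 ∨ b = 0))]
  refine if_congr ?_ rfl rfl
  show n + (A (j + 1) - A j) = A (j + 1) ↔ n = A j
  constructor <;> intro h <;> linarith

theorem phi_down (j : ℕ) (a b : ℕ) (a' : Fin (N (j + 1))) (b' : Fin (N j)) (n : ℤ)
    (ha : a ≠ 0) (hb : b ≠ 0) :
    phi ((⟨j, b'⟩ : H), n - c j b a) = phi ((⟨j + 1, a'⟩ : H), n) := by
  unfold phi c
  rw [if_neg (by tauto : ¬ (b = 0 ∨ a = 0))]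
  refine if_congr ?_ rfl rfl
  show n - (A (j + 1) - A j) = A j ↔ n = A (j + 1)
  constructor <;> intro h <;> linarith

theorem t_sup (h : S_SUM) : S_SUP := by
  obtain ⟨hs0, hs1, hc0, hc1⟩ := h
  have hN1 : ((N 1 : ℕ) : ℝ) = 64 := by unfold N; norm_num
  refine ⟨?_, ?_⟩
  · rintro ⟨⟨j, a⟩, n⟩
    cases j with
    | zero =>
      have h1 : Q g (⟨0, a⟩, n) = (5 / 4 + ((8 : ℝ) ^ (1 + 1) - 1) * (1 / 10 * (1 / 4) ^ 1)) / 64 := by
        have : Q g (⟨0, a⟩, n) = nsum g (⟨0, a⟩, n) / ((nb (⟨0, a⟩, n)).card : ℝ) := rfl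
        rw [this, hs0, hc0, hN1]
        congr 1
        exact gsum 1 _
      rw [h1]
      by_cases ha : (a : ℕ) = 0
      · have h2 : g (⟨0, a⟩, n) = 5 / 4 := by simp only [g]; exact if_pos ha
        have h3 : err (⟨0, a⟩, n) = 1 := by simp only [err]; exact if_pos ha
        rw [h2, h3]
        norm_num
      · have h2 : g (⟨0, a⟩, n) = 1 / 10 * (1 / 4) ^ 0 := by simp only [g]; exact if_neg ha
        have h3 : err (⟨0, a⟩, n) = 2 / (64 * 8 ^ 0) := by simp only [err]; exact if_neg ha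
        rw [h2, h3]
        norm_num
    | succ j =>
      have hcard : (((N (j + 2) + N j : ℕ)) : ℝ) = 65 * 8 ^ (j + 1) := by
        unfold N
        push_cast
        ring
      have h1 : Q g (⟨j + 1, a⟩, n) =
          ((5 / 4 + ((8 : ℝ) ^ (j + 2 + 1) - 1) * (1 / 10 * (1 / 4) ^ (j + 2))) +
            (5 / 4 + ((8 : ℝ) ^ (j + 1) - 1) * (1 / 10 * (1 / 4) ^ j))) / (65 * 8 ^ (j + 1)) := by
        have : Q g (⟨j + 1, a⟩, n) =
            nsum g (⟨j + 1, a⟩, n) / ((nb (⟨j + 1, a⟩, n)).card : ℝ) := rfl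
        rw [this, hs1, hc1, hcard]
        congr 1
        exact congrArg₂ (· + ·) (gsum (j + 2) _) (gsum j _)
      have hpos : (0 : ℝ) < 65 * 8 ^ (j + 1) := by positivity
      set t : ℝ := 2 ^ j with ht
      have ht1 : 1 ≤ t := one_le_pow₀ (by norm_num)
      have h8 : (8 : ℝ) ^ j = t ^ 3 := by
        rw [ht, ← pow_mul, mul_comm j 3, pow_mul]; norm_num
      set s : ℝ := (1 / 4) ^ j with hs
      have hs0' : 0 < s := by positivity
      have hst : t ^ 2 * s = 1 := by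
        rw [ht, hs, ← pow_mul, mul_comm j 2, pow_mul, ← mul_pow]; norm_num
      have h8s : (8 : ℝ) ^ j * s = t := by
        rw [h8]
        calc t ^ 3 * s = t * (t ^ 2 * s) := by ring
          _ = t := by rw [hst, mul_one]
      have hnum : (5 / 4 + ((8 : ℝ) ^ (j + 2 + 1) - 1) * (1 / 10 * (1 / 4) ^ (j + 2))) +
            (5 / 4 + ((8 : ℝ) ^ (j + 1) - 1) * (1 / 10 * s)) = 5 / 2 + 4 * t - 17 / 160 * s := by
        have e1 : (8 : ℝ) ^ (j + 2 + 1) = 512 * 8 ^ j := by ring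
        have e2 : (1 / 4 : ℝ) ^ (j + 2) = 1 / 16 * s := by rw [hs]; ring
        have e3 : (8 : ℝ) ^ (j + 1) = 8 * 8 ^ j := by ring
        rw [e1, e2, e3]
        linear_combination (4 : ℝ) * h8s
      rw [h1, hnum, div_le_iff₀ hpos]
      have e3 : (8 : ℝ) ^ (j + 1) = 8 * 8 ^ j := by ring
      by_cases ha : (a : ℕ) = 0
      · have h2 : g (⟨j + 1, a⟩, n) = 5 / 4 := by simp only [g]; exact if_pos ha
        have h3 : err (⟨j + 1, a⟩, n) = 1 := by simp only [err]; exact if_pos ha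
        rw [h2, h3, e3, h8]
        have : t ≤ t ^ 3 := le_self_pow₀ ht1 (by norm_num)
        nlinarith
      · have h2 : g (⟨j + 1, a⟩, n) = 1 / 10 * (1 / 4) ^ (j + 1) := by
          simp only [g]; exact if_neg ha
        have h3 : err (⟨j + 1, a⟩, n) = 2 / (64 * 8 ^ (j + 1)) := by
          simp only [err]; exact if_neg ha
        rw [h2, h3]
        have h4 : (1 / 10 * (1 / 4 : ℝ) ^ (j + 1) - 2 / (64 * 8 ^ (j + 1))) * (65 * 8 ^ (j + 1)) =
            13 * t - 65 / 32 := by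
          have e4 : (1 / 4 : ℝ) ^ (j + 1) = 1 / 4 * s := by rw [hs]; ring
          have e5 : (2 / (64 * 8 ^ (j + 1)) : ℝ) * (65 * 8 ^ (j + 1)) = 65 / 32 := by
            field_simp
            norm_num
          rw [sub_mul, e5, e4, e3]
          linear_combination (13 : ℝ) * h8s
        rw [h4]
        nlinarith
  · rintro ⟨⟨j, a⟩, n⟩
    by_cases ha : (a : ℕ) = 0
    · have h3 : err (⟨j, a⟩, n) = 1 := by simp only [err]; exact if_pos ha
      rw [h3, abs_le]
      have := phi_nonneg (⟨j, a⟩, n)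
      have := phi_le_one (⟨j, a⟩, n)
      have := Q_phi_nonneg (⟨j, a⟩, n)
      have := Q_phi_le_one (⟨j, a⟩, n)
      constructor <;> linarith
    · cases j with
      | zero =>
        have h3 : err (⟨0, a⟩, n) = 2 / (64 * 8 ^ 0) := by simp only [err]; exact if_neg ha
        have h1 : Q phi (⟨0, a⟩, n) = (∑ b : Fin (N 1), phi (⟨1, b⟩, n + c 0 a b)) / 64 := by
          have : Q phi (⟨0, a⟩, n) = nsum phi (⟨0, a⟩, n) / ((nb (⟨0, a⟩, n)).card : ℝ) := rfl
          rw [this, hs0, hc0, hN1]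
        have h4 := sum_diff (N 1) (fun b => phi (⟨1, b⟩, n + c 0 a b)) (phi (⟨0, a⟩, n))
          (fun b hb => phi_up 0 a b a b n ha hb) (fun b => phi_sub_le _ _)
        rw [hN1] at h4
        rw [h1, h3]
        rw [abs_le] at h4 ⊢
        constructor <;> linarith [h4.1, h4.2]
      | succ j =>
        have hcard : (((N (j + 2) + N j : ℕ)) : ℝ) = 65 * 8 ^ (j + 1) := by
          unfold N
          push_cast
          ring
        have h3 : err (⟨j + 1, a⟩, n) = 2 / (64 * 8 ^ (j + 1)) := by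
          simp only [err]; exact if_neg ha
        have h1 : Q phi (⟨j + 1, a⟩, n) =
            (∑ b : Fin (N (j + 2)), phi (⟨j + 2, b⟩, n + c (j + 1) a b) +
              ∑ b : Fin (N j), phi (⟨j, b⟩, n - c j b a)) / (65 * 8 ^ (j + 1)) := by
          have : Q phi (⟨j + 1, a⟩, n) =
              nsum phi (⟨j + 1, a⟩, n) / ((nb (⟨j + 1, a⟩, n)).card : ℝ) := rfl
          rw [this, hs1, hc1, hcard]
        have h4 := sum_diff (N (j + 2)) (fun b => phi (⟨j + 2, b⟩, n + c (j + 1) a b))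
          (phi (⟨j + 1, a⟩, n)) (fun b hb => phi_up (j + 1) a b a b n ha hb)
          (fun b => phi_sub_le _ _)
        have h5 := sum_diff (N j) (fun b => phi (⟨j, b⟩, n - c j b a))
          (phi (⟨j + 1, a⟩, n)) (fun b hb => phi_down j a b a b n ha hb)
          (fun b => phi_sub_le _ _)
        have hpos : (0 : ℝ) < 65 * 8 ^ (j + 1) := by positivity
        have hp8 : (0 : ℝ) < 8 ^ (j + 1) := by positivity
        rw [h1, h3]
        have h6 : (∑ b : Fin (N (j + 2)), phi (⟨j + 2, b⟩, n + c (j + 1) a b) +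
              ∑ b : Fin (N j), phi (⟨j, b⟩, n - c j b a)) / (65 * 8 ^ (j + 1)) -
              phi (⟨j + 1, a⟩, n) =
            ((∑ b : Fin (N (j + 2)), phi (⟨j + 2, b⟩, n + c (j + 1) a b) -
              (N (j + 2) : ℝ) * phi (⟨j + 1, a⟩, n)) +
              (∑ b : Fin (N j), phi (⟨j, b⟩, n - c j b a) -
              (N j : ℝ) * phi (⟨j + 1, a⟩, n))) / (65 * 8 ^ (j + 1)) := by
          rw [eq_div_iff hpos.ne', sub_mul, div_mul_cancel₀ _ hpos.ne', ← hcard]
          push_cast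
          ring
        rw [h6, abs_div, abs_of_pos hpos]
        calc _ ≤ 2 / (65 * (8 : ℝ) ^ (j + 1)) := by
              apply div_le_div_of_nonneg_right _ hpos.le
              exact le_trans (abs_add_le _ _) (by linarith)
          _ ≤ 2 / (64 * 8 ^ (j + 1)) := by
              apply div_le_div_of_nonneg_left (by norm_num) (by positivity)
              nlinarith

end H985LZ
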