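import Pool.Agent.H985R5.LZ.Defs

/-! (VIS) a path with summable error visits all translates infinitely often. -/

set_option autoImplicit false

namespace H985LZ

open Filter Topology

theorem t_vis : S_VIS := by
  intro γ hadj hsum k T
  have h0 : Tendsto (fun t => err (γ t)) atTop (𝓝 0) := hsum.tendsto_atTop_zero
  -- positions eventually nonzero
  have h1 : ∀ᶠ t in atTop, err (γ t) < 1 := h0.eventually (gt_mem_nhds one_pos)
  obtain ⟨T0, hT0⟩ := eventually_atTop.1 h1
  have hpos : ∀ t, T0 ≤ t → ((γ t).1.2 : ℕ) ≠ 0 := by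
    intro t ht h
    have := hT0 t ht
    unfold err at this
    rw [if_pos h] at this
    exact lt_irrefl _ this
  -- the layers tend to infinity
  have hlay : ∀ J : ℕ, ∀ᶠ t in atTop, J < (γ t).1.1 := by
    intro J
    have h2 : ∀ᶠ t in atTop, err (γ t) < 2 / (64 * 8 ^ J) :=
      h0.eventually (gt_mem_nhds (by positivity))
    filter_upwards [h2, eventually_ge_atTop T0] with t ht ht0
    unfold err at ht
    rw [if_neg (hpos t ht0)] at ht
    have h3 : (64 * (8 : ℝ) ^ J) < 64 * 8 ^ (γ t).1.1 := by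
      by_contra hcon
      push Not at hcon
      have : (2 : ℝ) / (64 * 8 ^ J) ≤ 2 / (64 * 8 ^ (γ t).1.1) :=
        div_le_div_of_nonneg_left (by norm_num) (by positivity) hcon
      linarith
    have h4 : (8 : ℝ) ^ J < 8 ^ (γ t).1.1 := by linarith
    exact (pow_lt_pow_iff_right₀ (by norm_num : (1 : ℝ) < 8)).1 h4
  -- the invariant
  have hinv : ∀ t, T0 ≤ t → (γ (t + 1)).2 - A (γ (t + 1)).1.1 = (γ t).2 - A (γ t).1.1 := by
    intro t ht
    have p1 := hpos t ht
    have p2 := hpos (t + 1) (by omega)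
    rcases hadj t with ⟨e1, e2⟩ | ⟨e1, e2⟩
    · rw [e1, e2, c, if_neg (by tauto)]
      ring
    · rw [e1, e2, c, if_neg (by tauto)]
      ring
  have hC : ∀ t, T0 ≤ t → (γ t).2 = ((γ T0).2 - A (γ T0).1.1) + A (γ t).1.1 := by
    intro t ht
    induction t, ht using Nat.le_induction with
    | base => ring
    | succ t ht ih => have := hinv t ht; linarith
  -- steps of the layers
  have hstep : ∀ t, (γ (t + 1)).1.1 ≤ (γ t).1.1 + 1 := by
    intro t
    rcases hadj t with ⟨e1, -⟩ | ⟨e1, -⟩ <;> omega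
  set C := (γ T0).2 - A (γ T0).1.1 with hCdef
  set T1 := max T T0 with hT1
  set J := Nat.pair (Encodable.encode (k - C)) (γ T1).1.1 with hJ
  have hAJ : A J = k - C := by
    unfold A
    rw [hJ, Nat.unpair_pair]
    exact Denumerable.ofNat_encode (k - C)
  have hJge : (γ T1).1.1 ≤ J := Nat.right_le_pair _ _
  classical
  have hex : ∃ t, T1 ≤ t ∧ J ≤ (γ t).1.1 := by
    obtain ⟨t, ht1, ht2⟩ := ((hlay J).and (eventually_ge_atTop T1)).exists
    exact ⟨t, ht2, ht1.le⟩
  obtain ⟨ht1, ht2⟩ := Nat.find_spec hex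
  have hmin := fun s (hs : s < Nat.find hex) => Nat.find_min hex hs
  have heq : (γ (Nat.find hex)).1.1 = J := by
    apply le_antisymm _ ht2
    rcases Nat.eq_or_lt_of_le ht1 with h | h
    · rw [← h]; exact hJge
    · obtain ⟨s, hs⟩ : ∃ s, Nat.find hex = s + 1 := ⟨Nat.find hex - 1, by omega⟩
      have h5 := hmin s (by omega)
      push Not at h5
      have h6 := h5 (by omega)
      have h7 := hstep s
      rw [← hs] at h7
      omega
  refine ⟨Nat.find hex, le_trans (le_max_left _ _) ht1, ?_⟩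
  rw [hC _ (le_trans (le_max_right _ _) ht1), heq, hAJ]
  ring

end H985LZ
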